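import Pool.Agent.H29.ENR.Stmts

/-!
Row INV of board enr (MP_d15c96_al): the theorem of Baer and Suzuki for a normal set of involutions
and its application to involutory automorphisms of a nonabelian simple group.
-/

set_option autoImplicit false

namespace Pool.ENR65

open Subgroup

section bs

variable {G : Type} [Group G]

/-- a 2-group generated by part of `C` -/
def TG (C M : Set G) : Prop := M ⊆ C ∧ IsPGroup 2 (closure M)

theorem dihed {a b : G} (ha : a * a = 1) (hb : b * b = 1) {k : ℕ} (hab : (a * b) ^ (2 ^ k) = 1) :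
    IsPGroup 2 (closure {a, b}) := by
  have hA : IsPGroup 2 (zpowers a) := by
    rintro ⟨x, hx⟩
    obtain ⟨n, rfl⟩ := mem_zpowers_iff.1 hx
    refine ⟨1, Subtype.ext ?_⟩
    have h1 : (a ^ n) ^ (2 ^ 1) = 1 := by
      rw [pow_one, ← zpow_natCast, ← zpow_mul, mul_comm, zpow_mul, zpow_natCast, pow_two, ha,
        one_zpow]
    simpa using h1
  have hR : IsPGroup 2 (zpowers (a * b)) := by
    rintro ⟨x, hx⟩
    obtain ⟨n, rfl⟩ := mem_zpowers_iff.1 hx
    refine ⟨k, Subtype.ext ?_⟩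
    have h1 : ((a * b) ^ n) ^ (2 ^ k) = 1 := by
      rw [← zpow_natCast, ← zpow_mul, mul_comm, zpow_mul, zpow_natCast, hab, one_zpow]
    simpa using h1
  have hai : a⁻¹ = a := inv_eq_of_mul_eq_one_left ha
  have hbi : b⁻¹ = b := inv_eq_of_mul_eq_one_left hb
  have hn : zpowers a ≤ normalizer (zpowers (a * b) : Set G) := by
    rw [zpowers_le, mem_normalizer_iff]
    have key : ∀ h ∈ zpowers (a * b), a * h * a⁻¹ ∈ zpowers (a * b) := by
      intro h hh
      obtain ⟨n, rfl⟩ := mem_zpowers_iff.1 hh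
      have h1 : a * (a * b) * a⁻¹ = (a * b)⁻¹ := by
        rw [mul_inv_rev, hai, hbi, ← mul_assoc, ha, one_mul]
      rw [← conj_zpow, h1]
      exact zpow_mem (inv_mem (mem_zpowers _)) _
    intro h
    refine ⟨key h, fun hh => ?_⟩
    have h2 := key _ hh
    have h3 : a * (a * h * a⁻¹) * a⁻¹ = h := by
      calc a * (a * h * a⁻¹) * a⁻¹ = (a * a) * h * (a⁻¹ * a⁻¹) := by group
        _ = h := by rw [hai, ha, one_mul, mul_one]
    rwa [h3] at h2
  refine (IsPGroup.to_sup_of_normal_right' hA hR hn).to_le ?_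
  rw [closure_le]
  rintro x (rfl | rfl)
  · exact mem_sup_left (mem_zpowers x)
  · have h4 : x = a * (a * x) := by rw [← mul_assoc, ha, one_mul]
    rw [h4]
    refine mul_mem (mem_sup_left (mem_zpowers _)) (mem_sup_right ?_)
    have h5 : a * (a * (a * x)) = a * x := by rw [← mul_assoc a a, ha, one_mul]
    rw [h5]
    exact mem_zpowers _

variable [Finite G]

theorem clm {C : Set G} (hconj : ∀ a ∈ C, ∀ b ∈ C, a * b * a⁻¹ ∈ C) {P : Subgroup G}
    (hP : IsPGroup 2 P) {D : Set G} (hD : D ⊆ C) (hDc : ∀ x ∈ C, x ∈ closure D → x ∈ D)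
    (hDP : D ⊆ P) {z : G} (hzC : z ∈ C) (hzP : z ∈ P) (hzD : z ∉ D) :
    ∃ x ∈ C, x ∈ P ∧ x ∉ D ∧ ∀ d ∈ D, x * d * x⁻¹ ∈ D := by
  obtain ⟨E, hE1, hE2⟩ := Finite.exists_le_maximal
    (p := fun E : Subgroup G => E ≤ P ∧ ∀ x ∈ C, x ∈ E → x ∈ D) (a := closure D)
    ⟨(closure_le _).2 hDP, hDc⟩
  have hEP : E ≤ P := hE2.1.1
  have hEC : ∀ x ∈ C, x ∈ E → x ∈ D := hE2.1.2
  have : Fact (Nat.Prime 2) := ⟨Nat.prime_two⟩
  have : Group.IsNilpotent P := hP.isNilpotent
  have hlt : E.subgroupOf P < ⊤ := by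
    rw [lt_top_iff_ne_top]
    intro h
    rw [subgroupOf_eq_top] at h
    exact hzD (hEC z hzC (h hzP))
  have hN := Group.normalizerCondition_of_isNilpotent (G := P) _ hlt
  have hnot : ¬ ((∀ x ∈ C, x ∈ (normalizer (E.subgroupOf P : Set P)).map P.subtype → x ∈ D)) := by
    intro h
    have h1 : (normalizer (E.subgroupOf P : Set P)).map P.subtype ≤ P := by
      rintro _ ⟨y, _, rfl⟩
      exact y.2
    have h2 : E ≤ (normalizer (E.subgroupOf P : Set P)).map P.subtype := by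
      intro x hx
      exact ⟨⟨x, hEP hx⟩, le_normalizer (mem_subgroupOf.2 hx), rfl⟩
    have h3 := hE2.2 ⟨h1, h⟩ h2
    refine hN.not_ge ?_
    intro y hy
    rw [mem_subgroupOf]
    exact h3 ⟨y, hy, rfl⟩
  push Not at hnot
  obtain ⟨x, hxC, ⟨y, hy, rfl⟩, hxD⟩ := hnot
  refine ⟨_, hxC, y.2, hxD, fun d hd => ?_⟩
  refine hEC _ (hconj _ hxC _ (hD hd)) ?_
  have h4 : (⟨d, hDP hd⟩ : P) ∈ E.subgroupOf P := mem_subgroupOf.2 (hE1 (subset_closure hd))
  have h5 := (mem_normalizer_iff.1 hy ⟨d, hDP hd⟩).1 h4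
  rw [mem_subgroupOf] at h5
  exact h5

/-- **Baer-Suzuki** for a set of involutions closed under conjugation by its elements. -/
theorem bs {C : Set G} (hC2 : ∀ c ∈ C, c * c = 1) (hconj : ∀ a ∈ C, ∀ b ∈ C, a * b * a⁻¹ ∈ C)
    (h2 : ∀ a ∈ C, ∀ b ∈ C, ∃ k : ℕ, (a * b) ^ (2 ^ k) = 1) : IsPGroup 2 (closure C) := by
  have hclosed : ∀ M, Maximal (TG C) M → ∀ x ∈ C, x ∈ closure M → x ∈ M := by
    intro M hM x hx hxM
    have h3 : TG C (insert x M) := by
      refine ⟨Set.insert_subset hx hM.1.1, hM.1.2.to_le ?_⟩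
      rw [closure_le]
      exact Set.insert_subset hxM subset_closure
    exact hM.2 h3 (Set.subset_insert _ _) (Set.mem_insert _ _)
  have huniq : ∀ M₁ M₂, Maximal (TG C) M₁ → Maximal (TG C) M₂ → M₁ = M₂ := by
    by_contra hcon
    push Not at hcon
    obtain ⟨M₁', M₂', h1', h2', hne'⟩ := hcon
    obtain ⟨⟨M₁, M₂⟩, ⟨hM₁, hM₂, hne⟩, hmax⟩ := Set.exists_max_image
      {q : Set G × Set G | Maximal (TG C) q.1 ∧ Maximal (TG C) q.2 ∧ q.1 ≠ q.2}
      (fun q => (q.1 ∩ q.2).ncard) (Set.toFinite _) ⟨(M₁', M₂'), h1', h2', hne'⟩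
    dsimp only at hM₁ hM₂ hne hmax
    have key : ∀ M N, Maximal (TG C) M → Maximal (TG C) N → M ≠ N → M ∩ N = M₁ ∩ M₂ →
        ∃ x ∈ C, x ∈ M ∧ x ∉ M₁ ∩ M₂ ∧ ∀ d ∈ M₁ ∩ M₂, x * d * x⁻¹ ∈ M₁ ∩ M₂ := by
      intro M N hM hN hMN hD
      rw [← hD]
      have hz : ∃ z ∈ M, z ∉ N := by
        by_contra hcon
        push Not at hcon
        exact hMN (Set.Subset.antisymm hcon (hM.2 hN.1 hcon))
      obtain ⟨z, hzM, hzN⟩ := hz
      obtain ⟨x, hx1, hx2, hx3, hx4⟩ := clm hconj hM.1.2 (D := M ∩ N)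
        (fun y hy => hM.1.1 hy.1)
        (fun y hyC hy => ⟨hclosed M hM y hyC (closure_mono Set.inter_subset_left hy),
          hclosed N hN y hyC (closure_mono Set.inter_subset_right hy)⟩)
        (fun y hy => subset_closure hy.1) (hM.1.1 hzM) (subset_closure hzM) (fun h => hzN h.2)
      exact ⟨x, hx1, hclosed M hM x hx1 hx2, hx3, hx4⟩
    obtain ⟨x, hxC, hxM, hxD, hxn⟩ := key M₁ M₂ hM₁ hM₂ hne rfl
    obtain ⟨y, hyC, hyM, hyD, hyn⟩ := key M₂ M₁ hM₂ hM₁ (Ne.symm hne) (Set.inter_comm _ _)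
    have hinvn : ∀ w ∈ C, (∀ d ∈ M₁ ∩ M₂, w * d * w⁻¹ ∈ M₁ ∩ M₂) →
        w ∈ normalizer (closure (M₁ ∩ M₂) : Set G) := by
      intro w hw hwn
      refine normalizer_le_normalizer_closure _ ?_
      rw [mem_set_normalizer_iff]
      intro h
      refine ⟨hwn h, fun hh => ?_⟩
      have h3 := hwn _ hh
      have hwi : w⁻¹ = w := inv_eq_of_mul_eq_one_left (hC2 w hw)
      have h4 : w * (w * h * w⁻¹) * w⁻¹ = h := by
        calc w * (w * h * w⁻¹) * w⁻¹ = (w * w) * h * (w⁻¹ * w⁻¹) := by group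
          _ = h := by rw [hwi, hC2 w hw, one_mul, mul_one]
      rwa [h4] at h3
    obtain ⟨k, hk⟩ := h2 x hxC y hyC
    have hdi := dihed (hC2 x hxC) (hC2 y hyC) hk
    have hDp : IsPGroup 2 (closure (M₁ ∩ M₂)) := hM₁.1.2.to_le (closure_mono Set.inter_subset_left)
    have hQ := IsPGroup.to_sup_of_normal_left' hDp hdi (by
      rw [closure_le]
      rintro w (rfl | rfl)
      · exact hinvn _ hxC hxn
      · exact hinvn _ hyC hyn)
    have hN : TG C ((M₁ ∩ M₂) ∪ {x, y}) := by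
      refine ⟨Set.union_subset (fun w hw => hM₁.1.1 hw.1) ?_, hQ.to_le ?_⟩
      · rintro w (rfl | rfl)
        · exact hxC
        · exact hyC
      · rw [Subgroup.closure_union]
    obtain ⟨M₃, hM₃, hM₃m⟩ := Finite.exists_le_maximal hN
    have hx3 : x ∈ M₃ := hM₃ (Or.inr (Or.inl rfl))
    have hy3 : y ∈ M₃ := hM₃ (Or.inr (Or.inr rfl))
    have hD3 : M₁ ∩ M₂ ⊆ M₃ := fun w hw => hM₃ (Or.inl hw)
    have hcard : ∀ M w, M₁ ∩ M₂ ⊆ M → w ∈ M → w ∈ M₃ → w ∉ M₁ ∩ M₂ →
        (M₁ ∩ M₂).ncard < (M ∩ M₃).ncard := by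
      intro M w h1 h2 h3 h4
      refine Set.ncard_lt_ncard ?_ (Set.toFinite _)
      refine ⟨Set.subset_inter h1 hD3, fun h => h4 (h ⟨h2, h3⟩)⟩
    have e1 : M₁ = M₃ := by
      by_contra hne1
      have h3 := hmax (M₁, M₃) ⟨hM₁, hM₃m, hne1⟩
      have h4 := hcard M₁ x Set.inter_subset_left hxM hx3 hxD
      dsimp only at h3
      omega
    have e2 : M₂ = M₃ := by
      by_contra hne1
      have h3 := hmax (M₂, M₃) ⟨hM₂, hM₃m, hne1⟩
      have h4 := hcard M₂ y Set.inter_subset_right hyM hy3 hyD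
      dsimp only at h3
      omega
    exact hne (e1.trans e2.symm)
  have h0 : TG C (∅ : Set G) := by
    refine ⟨Set.empty_subset _, ?_⟩
    rw [Subgroup.closure_empty]
    exact IsPGroup.of_bot
  obtain ⟨M, _, hM⟩ := Finite.exists_le_maximal h0
  have hCM : C ⊆ M := by
    intro c hc
    have h1 : TG C {c} := by
      refine ⟨Set.singleton_subset_iff.2 hc, ?_⟩
      have h3 := dihed (a := c) (b := c) (k := 0) (hC2 c hc) (hC2 c hc)
        (by rw [hC2 c hc, one_pow])
      rwa [Set.pair_eq_singleton] at h3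
    obtain ⟨M', h4, h5⟩ := Finite.exists_le_maximal h1
    rw [huniq M M' hM h5]
    exact h4 rfl
  exact hM.1.2.to_le (closure_mono hCM)

end bs

theorem sig_conj {T : Type} [Group T] (σ : MulAut T) (x : T) :
    σ * MulAut.conj x = MulAut.conj (σ x) * σ := by
  ext y
  simp [MulAut.mul_apply, MulAut.conj_apply]

end Pool.ENR65

namespace Pool.ENR

open Pool.ENR65 Subgroup

theorem inv_thm : INVStmt := by
  intro T _ _ σ hs hnc hσ2 hσ1
  have hss : σ * σ = 1 := by rw [← pow_two, hσ2]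
  have hσσ : ∀ x, σ (σ x) = x := fun x => by
    rw [← MulAut.mul_apply, hss, MulAut.one_apply]
  by_cases h : ∀ t : T, ∃ k : ℕ, (t⁻¹ * σ t) ^ (2 ^ k) = 1
  · exfalso
    have hcen : center T = ⊥ := by
      rcases hs.eq_bot_or_eq_top_of_normal (center T) inferInstance with h1 | h1
      · exact h1
      · exact absurd (fun a c => ((mem_center_iff.1 (h1 ▸ mem_top a : a ∈ center T)) c).symm) hnc
    have hci : ∀ x : T, MulAut.conj x = 1 → x = 1 := by
      intro x hx
      have h1 : x ∈ center T := by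
        rw [mem_center_iff]
        intro g
        have h2 : MulAut.conj x g = g := by rw [hx, MulAut.one_apply]
        rw [MulAut.conj_apply, mul_inv_eq_iff_eq_mul] at h2
        exact h2.symm
      rwa [hcen, mem_bot] at h1
    let C : Set (MulAut T) := {c | ∃ t : T, c = MulAut.conj t * σ * (MulAut.conj t)⁻¹}
    have hmul : ∀ s t : T, (MulAut.conj s * σ * (MulAut.conj s)⁻¹) * MulAut.conj t =
        MulAut.conj (s * σ (s⁻¹ * t)) * σ := by
      intro s t
      rw [map_mul MulAut.conj s, mul_assoc, mul_assoc, mul_assoc, ← map_inv, ← map_mul MulAut.conj,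
        sig_conj]
    have hC2 : ∀ c ∈ C, c * c = 1 := by
      rintro c ⟨t, rfl⟩
      calc MulAut.conj t * σ * (MulAut.conj t)⁻¹ * (MulAut.conj t * σ * (MulAut.conj t)⁻¹)
          = MulAut.conj t * (σ * σ) * (MulAut.conj t)⁻¹ := by group
        _ = 1 := by rw [hss, mul_one, mul_inv_cancel]
    have hconj : ∀ a ∈ C, ∀ b ∈ C, a * b * a⁻¹ ∈ C := by
      rintro a ⟨s, rfl⟩ b ⟨t, rfl⟩
      refine ⟨s * σ (s⁻¹ * t), ?_⟩
      have h1 := hmul s t
      generalize MulAut.conj s * σ * (MulAut.conj s)⁻¹ = a at h1 ⊢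
      calc a * (MulAut.conj t * σ * (MulAut.conj t)⁻¹) * a⁻¹
          = (a * MulAut.conj t) * σ * (a * MulAut.conj t)⁻¹ := by group
        _ = _ := by rw [h1]; group
    have h2 : ∀ a ∈ C, ∀ b ∈ C, ∃ k : ℕ, (a * b) ^ (2 ^ k) = 1 := by
      rintro a ⟨s, rfl⟩ b ⟨t, rfl⟩
      obtain ⟨k, hk⟩ := h (s⁻¹ * t)
      refine ⟨k, ?_⟩
      have h1 := hmul s t
      have h3 : MulAut.conj s * σ * (MulAut.conj s)⁻¹ * (MulAut.conj t * σ * (MulAut.conj t)⁻¹) =
          MulAut.conj (t * ((s⁻¹ * t)⁻¹ * σ (s⁻¹ * t)) * t⁻¹) := by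
        rw [← mul_assoc, ← mul_assoc, h1, mul_assoc _ σ σ, hss, mul_one, ← map_inv, ← map_mul]
        congr 1
        group
      rw [h3, ← map_pow, conj_pow, hk]
      simp
    have hO := bs hC2 hconj h2
    have hnor : ∀ g : T, MulAut.conj g ∈ normalizer (closure C : Set (MulAut T)) := by
      intro g
      refine normalizer_le_normalizer_closure _ ?_
      rw [mem_set_normalizer_iff]
      intro c
      constructor
      · rintro ⟨t, rfl⟩
        refine ⟨g * t, ?_⟩
        rw [map_mul]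
        group
      · rintro ⟨t, ht⟩
        refine ⟨g⁻¹ * t, ?_⟩
        have h1 : c = (MulAut.conj g)⁻¹ * (MulAut.conj g * c * (MulAut.conj g)⁻¹) *
            MulAut.conj g := by group
        rw [h1, ht, map_mul, map_inv]
        group
    let O : Subgroup T := (closure C).comap MulAut.conj
    have hOn : O.Normal := by
      refine ⟨fun n hn g => ?_⟩
      have h1 := (mem_normalizer_iff.1 (hnor g) (MulAut.conj n)).1 hn
      rwa [← map_inv, ← map_mul, ← map_mul] at h1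
    have hOp : IsPGroup 2 O := by
      rintro ⟨t, ht⟩
      obtain ⟨k, hk⟩ := hO ⟨MulAut.conj t, ht⟩
      refine ⟨k, Subtype.ext ?_⟩
      have h1 := congrArg Subtype.val hk
      simp only [SubmonoidClass.coe_pow, OneMemClass.coe_one] at h1 ⊢
      rw [← map_pow] at h1
      exact hci _ h1
    rcases hs.eq_bot_or_eq_top_of_normal O hOn with h1 | h1
    · refine hσ1 (MulEquiv.ext fun t => ?_)
      have h3 : σ t * t⁻¹ ∈ O := by
        change MulAut.conj (σ t * t⁻¹) ∈ closure C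
        have hσi : σ⁻¹ = σ := inv_eq_of_mul_eq_one_left hss
        have h4 : MulAut.conj (σ t * t⁻¹) = σ * (MulAut.conj t * σ * (MulAut.conj t)⁻¹) := by
          rw [← mul_assoc, ← mul_assoc, sig_conj, mul_assoc _ σ σ, hss, mul_one, map_mul, map_inv]
        rw [h4]
        refine mul_mem (subset_closure ⟨1, ?_⟩) (subset_closure ⟨t, rfl⟩)
        simp
      rw [h1, mem_bot, mul_inv_eq_one] at h3
      rw [h3, MulAut.one_apply]
    · have : Fact (Nat.Prime 2) := ⟨Nat.prime_two⟩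
      have hT : IsPGroup 2 T := by
        rw [h1] at hOp
        exact hOp.of_equiv topEquiv
      have := hs.toNontrivial
      have h3 := hT.center_nontrivial
      rw [hcen] at h3
      exact not_subsingleton_iff_nontrivial.2 h3 inferInstance
  · push Not at h
    obtain ⟨t, ht⟩ := h
    set w := t⁻¹ * σ t with hw
    obtain ⟨a, m, hm, ham⟩ := Nat.exists_eq_two_pow_mul_odd (orderOf_pos w).ne'
    have hσw : σ w = w⁻¹ := by
      rw [hw, map_mul, hσσ, map_inv, mul_inv_rev, inv_inv]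
    set x := w ^ (2 ^ a) with hx
    have hσx : σ x = x⁻¹ := by rw [hx, map_pow, hσw, inv_pow]
    have hox : orderOf x = m := by
      rw [hx, orderOf_pow_of_dvd (by positivity) ⟨m, ham⟩, ham]
      exact Nat.mul_div_cancel_left _ (by positivity)
    have hσz : ∀ y ∈ zpowers x, σ y ∈ zpowers x := by
      intro y hy
      obtain ⟨n, rfl⟩ := mem_zpowers_iff.1 hy
      rw [map_zpow, hσx]
      exact zpow_mem (inv_mem (mem_zpowers _)) _
    refine ⟨zpowers x, ⊥, ?_, ?_, bot_le, ?_, ?_, ?_, x, mem_zpowers x, ?_⟩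
    · intro y
      refine ⟨hσz y, fun hy => ?_⟩
      have h1 := hσz _ hy
      rwa [hσσ] at h1
    · intro y
      rw [mem_bot, mem_bot, map_eq_one_iff σ σ.injective]
    · intro g _ y hy
      rw [mem_bot] at hy ⊢
      rw [hy, mul_one, mul_inv_cancel]
    · rw [relIndex_bot_left, Nat.card_zpowers, hox]
      exact hm.not_two_dvd_nat
    · rw [relIndex_bot_left]
      exact Nat.card_pos.ne'
    · rw [pow_zero, pow_one, hσx, mem_bot]
      intro h1
      have h2 : x ^ 2 = 1 := by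
        rw [pow_two, ← inv_inj, mul_inv_rev, h1, inv_one]
      have h3 := orderOf_dvd_of_pow_eq_one h2
      rw [hox, Nat.dvd_prime Nat.prime_two] at h3
      rcases h3 with h3 | h3
      · rw [h3, orderOf_eq_one_iff] at hox
        exact ht a hox
      · rw [h3] at hm
        exact absurd hm (by decide)

end Pool.ENR
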