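import Pool.Agent.H36.ENR.Stmts2

/-! Board enr, row UTG: unipotent triangular case. -/

set_option autoImplicit false

namespace Pool.ENR

open Pool.Agent.H81.ENG Pool.Agent.H55.NEU

theorem tsq_finite65 {T : Type} [Group T] [Finite T] (τ : MulAut T) (k : ℕ) (hk : 0 < k)
    (hSQP : SQPStmt) : Finite (TSq τ k) := by
  have hinj : Function.Injective (fun (x : TSq τ k) (l : Fin k) => (x : ℤ → T) (l : ℕ)) := by
    intro x y hxy
    have h0 : ∀ l : ℕ, l < k → (x : ℤ → T) l = (y : ℤ → T) l := fun l hl =>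
      congrFun hxy ⟨l, hl⟩
    refine Subtype.ext (funext fun i => ?_)
    have hk' : (0 : ℤ) < k := by exact_mod_cast hk
    obtain ⟨r, hr⟩ : ∃ r : ℕ, (r : ℤ) = i % k :=
      ⟨(i % k).toNat, Int.toNat_of_nonneg (Int.emod_nonneg _ hk'.ne')⟩
    have hrk : r < k := by
      have := Int.emod_lt_of_pos i hk'
      rw [← hr] at this
      exact_mod_cast this
    have hi : i = r + k * (i / k) := by
      rw [hr]
      exact (Int.emod_add_mul_ediv i k).symm
    rcases le_total 0 (i / k) with hq | hq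
    · obtain ⟨q, hq'⟩ := Int.eq_ofNat_of_zero_le hq
      rw [hi, hq', (hSQP T τ k q x r).2.1, (hSQP T τ k q y r).2.1, h0 r hrk]
    · obtain ⟨q, hq'⟩ := Int.eq_ofNat_of_zero_le (neg_nonneg.2 hq)
      have hr2 : (r : ℤ) = i + k * q := by
        rw [← hq', hi]
        have : (k : ℤ) ≠ 0 := hk'.ne'
        have h3 : (r + k * (i / k) : ℤ) = i := hi.symm
        rw [h3]
        linarith
      have hx := (hSQP T τ k q x i).2.1
      have hy := (hSQP T τ k q y i).2.1
      rw [← hr2] at hx hy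
      exact (τ ^ q).injective (by rw [← hx, ← hy, h0 r hrk])
  exact Finite.of_injective _ hinj

theorem card_eq_zero_cast65 (F : Type) [Field F] [Finite F] : ((Nat.card F : ℕ) : F) = 0 := by
  have := Fintype.ofFinite F
  rw [Nat.card_eq_fintype_card]
  exact Nat.cast_card_eq_zero F

theorem utg_thm (hLRQ : LRQStmt) (hUTV : UTVStmt) (hSQE : SQEStmt) (hSQP : SQPStmt) :
    UTGStmt := by
  intro Γ F _ _ _ _ p b j hpf _ φ τ u χ t0 hp2 hφ hu hadd hcon hker hτ ht0 hφt hτj hχ1 hχj hbj d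
    hd
  have hp : p.Prime := hpf.out
  have hk : 0 < p ^ b := pow_pos hp.pos b
  have hone : χ 1 = 1 := by
    have h1 := hcon 1 1
    rw [one_mul, inv_one, mul_one, mul_one] at h1
    exact (hu h1).symm
  have hmul : ∀ g h, χ (g * h) = χ g * χ h := by
    intro g h
    have h1 := hcon (g * h) 1
    have h2 : g * h * u 1 * (g * h)⁻¹ = g * (h * u 1 * h⁻¹) * g⁻¹ := by group
    rw [h2, hcon, hcon, mul_one, mul_one] at h1
    exact (hu h1).symm
  have hinv : ∀ g, χ g * χ g⁻¹ = 1 := by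
    intro g
    rw [← hmul, mul_inv_cancel, hone]
  have hux : ∀ x, χ (u x) = 1 := by
    intro x
    have h1 := hcon (u x) 1
    have h2 : u x * u 1 = u 1 * u x := by rw [← hadd, ← hadd, add_comm]
    rw [h2, mul_inv_cancel_right, mul_one] at h1
    exact (hu h1).symm
  have hpowX : ∀ (g : Γ) (n : ℕ), χ (g ^ n) = χ g ^ n := by
    intro g n
    induction n with
    | zero => rw [pow_zero, pow_zero, hone]
    | succ n ih => rw [pow_succ, hmul, ih, pow_succ]
  have : Finite (TSq τ (p ^ b)) := tsq_finite65 τ (p ^ b) hk hSQP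
  let N : Subgroup (TSq τ (p ^ b)) :=
    { carrier := {x | ∀ i : ℤ, χ ((x : ℤ → Γ) i) = 1}
      one_mem' := fun i => hone
      mul_mem' := by
        intro x y hx hy i
        change χ ((x : ℤ → Γ) i * (y : ℤ → Γ) i) = 1
        rw [hmul, hx i, hy i, one_mul]
      inv_mem' := by
        intro x hx i
        change χ (((x : ℤ → Γ) i)⁻¹) = 1
        have := hinv ((x : ℤ → Γ) i)
        rwa [hx i, one_mul] at this }
  have hmem : ∀ x : TSq τ (p ^ b), x ∈ N ↔ ∀ i : ℤ, χ ((x : ℤ → Γ) i) = 1 := fun x => Iff.rfl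
  have hNn : N.Normal := by
    refine ⟨fun x hx g i => ?_⟩
    change χ ((g : ℤ → Γ) i * (x : ℤ → Γ) i * ((g : ℤ → Γ) i)⁻¹) = 1
    rw [hmul, hmul, hx i, mul_one, hinv]
  obtain ⟨ξ, r, hξ, hr, hcase⟩ := hLRQ (TSq τ (p ^ b)) N p (b + j) (Nat.card F - 1)
    (tsh τ (p ^ b)) hp hp2 hbj
    (by
      intro x
      rw [hmem, hmem]
      constructor
      · intro h i
        rw [tsh_apply]
        exact h _
      · intro h i
        have h1 := h (i - 1)
        rw [tsh_apply, sub_add_cancel] at h1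
        exact h1)
    (by
      intro x y
      rw [hmem]
      intro i
      change χ ((x : ℤ → Γ) i * (y : ℤ → Γ) i * ((x : ℤ → Γ) i)⁻¹ * ((y : ℤ → Γ) i)⁻¹) = 1
      rw [hmul, hmul, hmul]
      calc χ ((x : ℤ → Γ) i) * χ ((y : ℤ → Γ) i) * χ ((x : ℤ → Γ) i)⁻¹ * χ ((y : ℤ → Γ) i)⁻¹
          = (χ ((x : ℤ → Γ) i) * χ ((x : ℤ → Γ) i)⁻¹) *
            (χ ((y : ℤ → Γ) i) * χ ((y : ℤ → Γ) i)⁻¹) := by ring
        _ = 1 := by rw [hinv, hinv, one_mul])
    (by
      intro h1
      have h2 : p ∣ Nat.card F := by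
        rw [← CharP.cast_eq_zero_iff F p]
        exact card_eq_zero_cast65 F
      have h3 : 0 < Nat.card F := Nat.card_pos
      have h4 : p ∣ Nat.card F - (Nat.card F - 1) := Nat.dvd_sub h2 h1
      have h5 : Nat.card F - (Nat.card F - 1) = 1 := by omega
      rw [h5] at h4
      exact hp.one_lt.ne' (Nat.dvd_one.1 h4))
    (by
      intro x
      rw [hmem]
      intro i
      change χ (((x : ℤ → Γ) i) ^ (Nat.card F - 1)) = 1
      rw [hpowX]
      have hne : χ ((x : ℤ → Γ) i) ≠ 0 := by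
        intro h0
        have := hinv ((x : ℤ → Γ) i)
        rw [h0, zero_mul] at this
        exact zero_ne_one this
      have := Fintype.ofFinite F
      rw [Nat.card_eq_fintype_card]
      exact FiniteField.pow_card_sub_one_eq_one _ hne)
    (by
      intro x
      rw [hmem]
      intro i
      change χ ((((tsh τ (p ^ b) ^ (p ^ (b + j))) x : TSq τ (p ^ b)) : ℤ → Γ) i *
        ((x : ℤ → Γ) i)⁻¹) = 1
      rw [(hSQP Γ τ (p ^ b) (p ^ (b + j)) x i).1]
      have h1 := (hSQP Γ τ (p ^ b) (p ^ j) x i).2.1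
      have h2 : (i + ((p ^ (b + j) : ℕ) : ℤ)) = i + ((p ^ b : ℕ) : ℤ) * ((p ^ j : ℕ) : ℤ) := by
        rw [pow_add]
        push_cast
        ring
      rw [h2, h1, hτj, hmul, hmul, hmul, hux, one_mul]
      have h3 := hinv (u t0)
      rw [hux, one_mul] at h3
      rw [h3, mul_one, hinv])
    (by
      rcases Nat.eq_zero_or_pos j with hj | hj
      · subst hj
        have hb : 1 ≤ b := by omega
        obtain ⟨g, hg⟩ := hχ1
        obtain ⟨x, hx⟩ := hSQE Γ τ (p ^ b) hk (fun l => if l = 0 then g else 1)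
        refine ⟨x, fun hN => ?_⟩
        have h1 := (hmem _).1 hN 0
        change χ ((((tsh τ (p ^ b) ^ (p ^ (b + 0 - 1))) x : TSq τ (p ^ b)) : ℤ → Γ) 0 *
          ((x : ℤ → Γ) 0)⁻¹) = 1 at h1
        rw [(hSQP Γ τ (p ^ b) (p ^ (b + 0 - 1)) x 0).1, zero_add] at h1
        have h2 := hx (p ^ (b + 0 - 1)) (Nat.pow_lt_pow_right hp.one_lt (by omega))
        have h3 := hx 0 hk
        rw [if_neg (pow_pos hp.pos _).ne'] at h2
        rw [if_pos rfl, Nat.cast_zero] at h3
        rw [h2, h3, one_mul] at h1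
        have h4 := hinv g
        rw [h1, mul_one] at h4
        exact hg h4
      · obtain ⟨g, hg⟩ := hχj hj
        obtain ⟨x, hx⟩ := hSQE Γ τ (p ^ b) hk (fun _ => g)
        refine ⟨x, fun hN => ?_⟩
        have h1 := (hmem _).1 hN 0
        change χ ((((tsh τ (p ^ b) ^ (p ^ (b + j - 1))) x : TSq τ (p ^ b)) : ℤ → Γ) 0 *
          ((x : ℤ → Γ) 0)⁻¹) = 1 at h1
        have h2 := (hSQP Γ τ (p ^ b) (p ^ (j - 1)) x 0).2.1
        have h5 : ((0 : ℤ) + ((p ^ (b + j - 1) : ℕ) : ℤ)) =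
            0 + ((p ^ b : ℕ) : ℤ) * ((p ^ (j - 1) : ℕ) : ℤ) := by
          rw [show b + j - 1 = b + (j - 1) by omega, pow_add]
          push_cast
          ring
        have h3 := hx 0 hk
        rw [Nat.cast_zero] at h3
        rw [(hSQP Γ τ (p ^ b) (p ^ (b + j - 1)) x 0).1, h5, h2, h3, hmul] at h1
        have h4 := hinv g
        apply hg
        calc χ ((τ ^ (p ^ (j - 1))) g) = χ ((τ ^ (p ^ (j - 1))) g) * (χ g * χ g⁻¹) := by
              rw [h4, mul_one]
          _ = (χ ((τ ^ (p ^ (j - 1))) g) * χ g⁻¹) * χ g := by ring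
          _ = χ g := by rw [h1, one_mul])
  refine hUTV Γ F p b j φ τ u χ t0 hφ hu hadd hcon hker hτ ht0 hφt hτj ξ r d hr ?_ ?_
  · by_contra hall
    push Not at hall
    exact hξ ((hmem _).2 hall)
  · rcases hcase with h | h
    · exact Or.inl ⟨(hmem _).1 h, hd.1⟩
    · exact Or.inr ⟨(hmem _).1 h, hd.2⟩

end Pool.ENR
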