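import Pool.Agent.H29.ENR.Stmts3

/-! Board enr, row ABG: the reduction theorem for abelian Sylow subgroups. -/

set_option autoImplicit false

namespace Pool.ENR

open Pool.Agent.H81.ENG

theorem abg_thm (hGSE : GSEStmt) (hBTR : BTRStmt) : ABGStmt := by
  intro T _ _ p hpf hp2 hs hnc hab hout hlaw σ N m h1 h2
  have hp : p.Prime := hpf.out
  right
  right
  right
  obtain ⟨t₀, rfl⟩ := hout σ ⟨N, h1⟩
  -- the `p`-part of `t₀` (as in row REA)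
  obtain ⟨a, k, hk, hn⟩ : ∃ a k : ℕ, ¬ p ∣ k ∧ orderOf t₀ = p ^ a * k := by
    obtain ⟨a, k, hk, hn⟩ := Nat.exists_eq_pow_mul_and_not_dvd (n := orderOf t₀)
      (orderOf_pos t₀).ne' p hp.ne_one
    exact ⟨a, k, hk, hn⟩
  have hco : Nat.Coprime k (p ^ N) :=
    Nat.Coprime.pow_right N (Nat.coprime_comm.1 ((Nat.Prime.coprime_iff_not_dvd hp).2 hk))
  obtain ⟨e, he1, he2⟩ := Nat.chineseRemainder hco 0 1
  have hke : k ∣ e := (Nat.modEq_zero_iff_dvd).1 he1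
  obtain ⟨t₁, ht₁⟩ : ∃ t₁ : T, t₁ = t₀ ^ e := ⟨_, rfl⟩
  have hσ : MulAut.conj t₁ = MulAut.conj t₀ := by
    rw [ht₁, map_pow]
    conv_rhs => rw [← pow_one (MulAut.conj t₀)]
    rw [pow_eq_pow_iff_modEq]
    exact he2.of_dvd (orderOf_dvd_of_pow_eq_one h1)
  have ht₁a : t₁ ^ (p ^ a) = 1 := by
    rw [ht₁, ← pow_mul]
    apply orderOf_dvd_iff_pow_eq_one.1
    rw [hn, mul_comm]
    exact Nat.mul_dvd_mul hke dvd_rfl
  obtain ⟨c, -, hc⟩ := (Nat.dvd_prime_pow hp).1 (orderOf_dvd_of_pow_eq_one ht₁a)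
  have ht₁c : t₁ ^ (p ^ c) = 1 := by rw [← hc]; exact pow_orderOf_eq_one t₁
  have hmc : m + 1 ≤ c := by
    by_contra hcon
    push Not at hcon
    apply h2
    rw [← hσ, ← map_pow]
    have : t₁ ^ (p ^ m) = 1 := by
      obtain ⟨i, hi⟩ : ∃ i, m = c + i := ⟨m - c, by omega⟩
      rw [hi, pow_add, pow_mul, ht₁c, one_pow]
    rw [this, map_one]
  refine ⟨fun b hb d hd => ?_, fun d hd => (pow_dvd_pow p hmc).trans (hlaw t₁ c hc d hd)⟩
  -- a Sylow subgroup containing `t₁`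
  have hz : IsPGroup p (Subgroup.zpowers t₁) := by
    rintro ⟨x, hx⟩
    obtain ⟨i, rfl⟩ := Subgroup.mem_zpowers_iff.1 hx
    refine ⟨c, Subtype.ext ?_⟩
    have h3 : (t₁ ^ i) ^ (p ^ c) = 1 := by
      rw [← zpow_natCast, ← zpow_mul, mul_comm, zpow_mul, zpow_natCast, ht₁c, one_zpow]
    simpa using h3
  obtain ⟨P, hP⟩ := hz.exists_le_sylow
  have htP : t₁ ∈ P := hP (Subgroup.mem_zpowers t₁)
  have hzP : t₁⁻¹ ∈ P := inv_mem htP
  have hzc : (t₁⁻¹) ^ (p ^ c) = 1 := by rw [inv_pow, ht₁c, inv_one]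
  have hzne : (t₁⁻¹) ^ (p ^ (c - 1)) ≠ 1 := by
    intro h3
    have h4 := orderOf_dvd_of_pow_eq_one h3
    rw [orderOf_inv, hc] at h4
    have h5 := (Nat.pow_dvd_pow_iff_le_right hp.one_lt).1 h4
    omega
  obtain ⟨n, m', hn1, hn2, hn3, hn4⟩ := hBTR T p P ((t₁⁻¹) ^ (p ^ (c - 1))) hs hnc (hab P)
    (pow_mem hzP _) hzne
  have h6 := hGSE T p b c m' P t₁⁻¹ n hp hp2 hb (by omega) P.2 (hab P) hn3 hn1 hn2 hzP hzc hn4 d
    (by rw [inv_inv, hσ]; exact hd)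
  exact ((pow_dvd_pow p (by omega : b + m + 1 ≤ b + c)).trans h6).trans (dvd_ed d)

end Pool.ENR
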